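import Pool.Agent.H37.CP.Targets

/-!
# (ERR) the errors of a kernel on intersections of comparisons
-/

namespace Pool.Agent.H81.CPE

open Finset Pool.Agent.H37.CP
open Pool.Agent.H1.LP (Clause viol Loc Sys supp ip)
open Pool.Agent.H96.KX (psz fac jun PDz)
open Pool.Agent.H91.AV (MomInd rhx bix kap)

/-- the Hölder computation -/
theorem err_holder {Y X : Type} [Fintype Y] [Fintype X] (E : Y → ℝ) (δ : ℝ) (q : ℕ)
    (B : Finset X) (hδ : 0 ≤ δ) (hE : ∀ y, 0 ≤ E y)
    (h : ∑ y, E y ^ 4 ≤ 2048 ^ q * (δ ^ 4 * (Fintype.card Y * (Fintype.card X : ℝ) ^ 2)) *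
      (B.card : ℝ) ^ 2) : ∑ y, E y ≤ gg Y X δ q := by
  have hB : (B.card : ℝ) ≤ Fintype.card X := by exact_mod_cast Finset.card_le_univ B
  have hS0 : 0 ≤ ∑ y, E y := Finset.sum_nonneg fun y _ => hE y
  have h1 : (∑ y, E y) ^ 2 ≤ (Fintype.card Y : ℝ) * ∑ y, E y ^ 2 := by
    have := sq_sum_le_card_mul_sum_sq (s := (Finset.univ : Finset Y)) (f := E)
    rwa [Finset.card_univ] at this
  have h2 : (∑ y, E y ^ 2) ^ 2 ≤ (Fintype.card Y : ℝ) * ∑ y, E y ^ 4 := by
    have := sq_sum_le_card_mul_sum_sq (s := (Finset.univ : Finset Y)) (f := fun y => E y ^ 2)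
    rw [Finset.card_univ] at this
    refine this.trans (le_of_eq ?_)
    congr 1
    refine Finset.sum_congr rfl fun y _ => ?_
    ring
  have hn : (0 : ℝ) ≤ Fintype.card Y := Nat.cast_nonneg _
  have hm : (0 : ℝ) ≤ Fintype.card X := Nat.cast_nonneg _
  have h3 : (∑ y, E y) ^ 4 ≤ (Fintype.card Y : ℝ) ^ 3 * ∑ y, E y ^ 4 := by
    have a1 : (∑ y, E y) ^ 4 ≤ ((Fintype.card Y : ℝ) * ∑ y, E y ^ 2) ^ 2 := by
      have := pow_le_pow_left₀ (sq_nonneg (∑ y, E y)) h1 2
      rwa [← pow_mul] at this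
    refine a1.trans ?_
    rw [mul_pow]
    have := mul_le_mul_of_nonneg_left h2 (sq_nonneg (Fintype.card Y : ℝ))
    refine this.trans (le_of_eq (by ring))
  have h4 : (∑ y, E y) ^ 4 ≤ (gg Y X δ q) ^ 4 := by
    refine h3.trans ?_
    have a2 : (2048 : ℝ) ^ q ≤ (8 ^ q) ^ 4 := by
      rw [← pow_mul, mul_comm, pow_mul]
      exact pow_le_pow_left₀ (by norm_num) (by norm_num) q
    have a3 : (B.card : ℝ) ^ 2 ≤ (Fintype.card X : ℝ) ^ 2 :=
      pow_le_pow_left₀ (Nat.cast_nonneg _) hB 2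
    calc (Fintype.card Y : ℝ) ^ 3 * ∑ y, E y ^ 4
        ≤ (Fintype.card Y : ℝ) ^ 3 * (2048 ^ q *
          (δ ^ 4 * (Fintype.card Y * (Fintype.card X : ℝ) ^ 2)) * (B.card : ℝ) ^ 2) :=
          mul_le_mul_of_nonneg_left h (by positivity)
      _ ≤ (Fintype.card Y : ℝ) ^ 3 * ((8 ^ q) ^ 4 *
          (δ ^ 4 * (Fintype.card Y * (Fintype.card X : ℝ) ^ 2)) * (Fintype.card X : ℝ) ^ 2) := by
          refine mul_le_mul_of_nonneg_left ?_ (by positivity)
          refine mul_le_mul (mul_le_mul_of_nonneg_right a2 (by positivity)) a3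
            (by positivity) (by positivity)
      _ = (gg Y X δ q) ^ 4 := by
          unfold gg
          ring
  have hg : 0 ≤ gg Y X δ q := by
    unfold gg
    positivity
  exact le_of_pow_le_pow_left₀ (by norm_num) hg h4

theorem pf_ERR (hM : S_MAXI) : S_ERR := by
  classical
  intro Y X ι _ _ K lY lX δ hδ hK L B
  have hκ : (0 : ℝ) ≤ δ ^ 4 * (Fintype.card Y * (Fintype.card X : ℝ) ^ 2) := by positivity
  constructor
  · obtain ⟨E, hE0, hE1, hE2⟩ := hM Y X K (δ ^ 4 * (Fintype.card Y * (Fintype.card X : ℝ) ^ 2))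
      Set.univ Finset.univ hκ (fun B' _ => by
        obtain ⟨T, hT0, hT1, hT2⟩ := hK.pos B'
        exact ⟨T, hT0, fun y _ => hT1 y, hT2⟩) L B (Finset.subset_univ _)
    have h1 := err_holder E δ L.length B hδ hE0 hE2
    have h2 : ∑ y, -(E y) ≤ ∑ y, ∑ x ∈ row L B y, K y x :=
      Finset.sum_le_sum fun y _ => hE1 y (Set.mem_univ y)
    rw [Finset.sum_neg_distrib] at h2
    linarith
  · intro i hi
    set B' := B.filter (fun x => x ∈ lX i) with hB'
    obtain ⟨E, hE0, hE1, hE2⟩ := hM Y X (fun y x => -(K y x))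
      (δ ^ 4 * (Fintype.card Y * (Fintype.card X : ℝ) ^ 2))
      (lY i) (lX i) hκ (fun B'' hB'' => by
        obtain ⟨T, hT0, hT1, hT2⟩ := hK.neg i B'' hB''
        refine ⟨T, hT0, fun y hy => ?_, hT2⟩
        rw [Finset.sum_neg_distrib]
        linarith [hT1 y hy]) L B' (fun x hx => (Finset.mem_filter.1 hx).2)
    have h1 := err_holder E δ L.length B' hδ hE0 hE2
    have h2 : ∑ y, ∑ x ∈ row L B y, K y x ≤ ∑ y, E y := by
      refine Finset.sum_le_sum fun y _ => ?_
      have hrow : row L B y = row L B' y := by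
        ext x
        constructor
        · intro hx
          have h3 := (hi y x hx).2
          unfold row at hx ⊢
          rw [Finset.mem_filter] at hx ⊢
          exact ⟨Finset.mem_filter.2 ⟨hx.1, h3⟩, hx.2⟩
        · intro hx
          unfold row at hx ⊢
          rw [Finset.mem_filter] at hx ⊢
          exact ⟨(Finset.mem_filter.1 hx.1).1, hx.2⟩
      by_cases hy : y ∈ lY i
      · have h4 := hE1 y hy
        rw [Finset.sum_neg_distrib] at h4
        rw [hrow]
        linarith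
      · have h5 : row L B y = ∅ := by
          rw [Finset.eq_empty_iff_forall_notMem]
          intro x hx
          exact hy (hi y x hx).1
        rw [h5, Finset.sum_empty]
        exact hE0 y
    linarith

end Pool.Agent.H81.CPE
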